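import Pool.Agent.Work.MP_78978c_an.Cuts
import Pool.Agent.Work.MP_78978c_an.Example

/-!
# MP_78978c_an: the answer to Q1 is negative

There are Riesz spaces `E`, `F` with `F` Archimedean, a Dedekind completion `J : F → G` of `F`, and
orthogonally additive maps `S`, `T` such that `S ∨ T = W` exists in `𝒪(E, F)`, but for some
`x : E` the supremum `R₁ x` in `G` of all `J (S u) + J (T v)` with `x = u + v`, `u ⊥ v`
is different from `J (W x)`.

The example: `E` is the space of real functions on `ℕ` whose period is a power of two, `mean` is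
the mean value, `K` is the set of those `g : E` with values in `{-1, 0, 1}` and `mean |g| < 1/2`,
with the coarsest topology making all `g ↦ mean (x g)` continuous, `F = C(K)`,
`S x (g) = 2 mean (x g)`, `T = 0`, `W x (g) = mean |x| + mean (x g)`, and `x = 1`.
-/

set_option autoImplicit false

namespace Pool.Agent.Results.MP_78978c_an.Disproof

open Pool.Agent.Work.MP_78978c_an

/-- Negation of Q1 of MP_78978c_an. -/
theorem result :
    ∃ (E F G : RieszSpace) (J : F → G),
      RieszArchimedean F ∧ IsDedekindCompletion J ∧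
      ∃ S T W : OAMap E F, IsLUB {S, T} W ∧
        ∃ (x : E) (R : G),
          IsLUB {y : G | ∃ u v : E, x = u + v ∧ Perp u v ∧ y = J (S.1 u) + J (T.1 v)} R ∧
          R ≠ J (W.1 x) := by
  let E : RieszSpace := ⟨PerE⟩
  let F : RieszSpace := ⟨C(KSet, ℝ)⟩
  have hF : RieszArchimedean F := archimedean_C
  obtain ⟨G, J, hJ⟩ := exists_dedekindCompletion F hF
  let S : OAMap E F := ⟨opS, orthAdditive_opS⟩
  let T : OAMap E F := ⟨fun _ => 0, orthAdditive_zero⟩
  let W : OAMap E F := ⟨opW, orthAdditive_opW⟩
  have hJmono : ∀ a b : F, a ≤ b → J a ≤ J b := by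
    intro a b hab
    have h := hJ.map_sup a b
    rw [sup_eq_right.mpr hab] at h
    exact sup_eq_right.mp h.symm
  refine ⟨E, F, G, J, hF, hJ, S, T, W, ?_, ?_⟩
  · constructor
    · intro P hP
      rcases hP with rfl | hP
      · exact fun x => opS_le_opW x
      · rw [Set.mem_singleton_iff.mp hP]
        exact fun x => zero_le_opW x
    · intro P hP x
      have h1 : S ≤ P := hP (Or.inl rfl)
      have h2 : T ≤ P := hP (Or.inr rfl)
      exact opW_le P.1 P.2 (fun x => h1 x) (fun x => h2 x) x
  · -- the point `x = 1`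
    set A : Set G := {y : G | ∃ u v : E, (oneE : E) = u + v ∧ Perp u v ∧
      y = J (S.1 u) + J (T.1 v)} with hA
    have hub : J ((opW oneE - constK (1 / 2) : C(KSet, ℝ)) : F) ∈ upperBounds A := by
      rintro y ⟨u, v, h1, h2, rfl⟩
      rw [← hJ.map_add]
      apply hJmono
      have h3 := upper u v h2 h1
      show opS u + 0 ≤ opW oneE - constK (1 / 2)
      rw [add_zero]
      exact h3
    have hne : A.Nonempty := by
      refine ⟨_, oneE, 0, ?_, ?_, rfl⟩
      · exact (add_zero (oneE : PerE)).symm
      · exact perp_iff.mpr fun i => Or.inr rfl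
    obtain ⟨R, hR⟩ := hJ.complete A hne ⟨_, hub⟩
    refine ⟨oneE, R, hR, ?_⟩
    intro hRW
    have h1 : R ≤ J ((opW oneE - constK (1 / 2) : C(KSet, ℝ)) : F) := hR.2 hub
    rw [hRW] at h1
    have h2 : J (W.1 oneE) = J ((opW oneE - constK (1 / 2) : C(KSet, ℝ)) : F) :=
      le_antisymm h1 (hJmono _ _ (by
        intro g
        show opW oneE g - 1 / 2 ≤ opW oneE g
        linarith))
    have h3 := hJ.injective h2
    have h4 : opW oneE (⟨fun _ => 0, fun i => Or.inr (Or.inl rfl), ⟨0, fun i => rfl⟩, by
        have : IsPer 0 (fun _ : ℕ => |(0 : ℝ)|) := fun i => rfl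
        rw [this.mean_eq, avg_const]
        norm_num⟩ : KSet) = (opW oneE - constK (1 / 2)) _ :=
      congrArg (fun f : C(KSet, ℝ) => f _) h3
    have h5 : ∀ g : KSet, (opW oneE - constK (1 / 2)) g = opW oneE g - 1 / 2 := fun g => rfl
    rw [h5] at h4
    linarith

end Pool.Agent.Results.MP_78978c_an.Disproof
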